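import Mathlib

set_option autoImplicit false

open Set Filter Topology

namespace Pool.Agent.Results.MP_f12e07_gt.SeparablePart

/-- `C_p(X)`: continuous real functions with the topology of pointwise convergence. -/
abbrev Cp (X : Type*) [TopologicalSpace X] : Type _ := {f : X → ℝ // Continuous f}

variable {X : Type*} [TopologicalSpace X]

lemma tendsto_cp {ι : Type*} {l : Filter ι} (u : ι → Cp X) (f : Cp X) :
    Tendsto u l (𝓝 f) ↔ ∀ x, Tendsto (fun i => (u i).1 x) l (𝓝 (f.1 x)) := by
  rw [tendsto_subtype_rng, tendsto_pi_nhds]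

lemma eval_cont (x : X) : Continuous (fun h : Cp X => h.1 x) :=
  (continuous_apply x).comp continuous_subtype_val

/-- the zero function -/
def z : Cp X := ⟨fun _ => 0, continuous_const⟩

theorem exists_discrete [T2Space X] [CompletelyRegularSpace X] [Infinite X]
    (E : Set (Cp X)) (hE : E.Countable) (hEne : E.Nonempty) :
    ∃ D : Set (Cp X × Cp X), D.Countable ∧ DiscreteTopology D ∧
      ∀ a ∈ closure E, (a, z) ∈ closure D := by
  obtain ⟨e, he⟩ := hE.exists_eq_range hEne
  obtain ⟨U, hUinf, hUo, hUd⟩ := exists_seq_infinite_isOpen_pairwise_disjoint X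
  have hpt : ∀ n, ∃ x, x ∈ U n := fun n => (hUinf n).nonempty
  choose pt hpt using hpt
  have hg : ∀ n, ∃ g : X → ℝ, Continuous g ∧ g (pt n) = 1 ∧ (∀ x, x ∉ U n → g x = 0) := by
    intro n
    obtain ⟨φ, hφ, h0, h1⟩ := CompletelyRegularSpace.completely_regular (pt n) (U n)ᶜ
      (hUo n).isClosed_compl (fun hx => hx (hpt n))
    refine ⟨fun x => 1 - (φ x : ℝ), continuous_const.sub (continuous_subtype_val.comp hφ), ?_, ?_⟩
    · simp [h0]
    · intro x hx
      have := h1 hx
      simp [this]
  choose g hgc hg1 hg0 using hg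
  let d : ℕ × ℕ → Cp X × Cp X := fun q => (e q.1, ⟨g (Nat.pair q.1 q.2), hgc _⟩)
  have hmem : ∀ m n, m ≠ n → pt n ∉ U m := by
    intro m n hmn hx
    exact Set.disjoint_left.1 (hUd hmn) hx (hpt n)
  have hD : DiscreteTopology (range d) := by
    rw [discreteTopology_subtype_iff']
    rintro _ ⟨q, rfl⟩
    refine ⟨{k : Cp X × Cp X | 1 / 2 < k.2.1 (pt (Nat.pair q.1 q.2))},
      isOpen_lt continuous_const ((eval_cont _).comp continuous_snd), ?_⟩
    apply Set.Subset.antisymm
    · rintro _ ⟨hk, ⟨r, rfl⟩⟩
      by_cases hqr : r = q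
      · rw [hqr]; rfl
      · exfalso
        have hne : Nat.pair r.1 r.2 ≠ Nat.pair q.1 q.2 := by
          intro hp
          rw [Nat.pair_eq_pair] at hp
          exact hqr (Prod.ext hp.1 hp.2)
        have h0 := hg0 (Nat.pair r.1 r.2) _ (hmem _ _ hne)
        have hk' : 1 / 2 < g (Nat.pair r.1 r.2) (pt (Nat.pair q.1 q.2)) := hk
        rw [h0] at hk'
        norm_num at hk'
    · rintro _ rfl
      refine ⟨?_, ⟨q, rfl⟩⟩
      change 1 / 2 < g (Nat.pair q.1 q.2) (pt (Nat.pair q.1 q.2))
      rw [hg1]
      norm_num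
  have hlim : ∀ n, (e n, z) ∈ closure (range d) := by
    intro n
    refine mem_closure_of_tendsto (f := fun k : ℕ => d (n, k)) (b := atTop) ?_
      (Eventually.of_forall fun k => ⟨(n, k), rfl⟩)
    refine Tendsto.prodMk_nhds tendsto_const_nhds ?_
    rw [tendsto_cp]
    intro x
    have hev : ∀ᶠ k : ℕ in atTop, g (Nat.pair n k) x = 0 := by
      by_cases hex : ∃ k0, x ∈ U (Nat.pair n k0)
      · obtain ⟨k0, hk0⟩ := hex
        filter_upwards [eventually_gt_atTop k0] with k hk
        have hne : Nat.pair n k0 ≠ Nat.pair n k := by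
          intro hp
          rw [Nat.pair_eq_pair] at hp
          omega
        exact hg0 _ _ (fun hx => Set.disjoint_left.1 (hUd hne) hk0 hx)
      · push Not at hex
        exact Eventually.of_forall fun k => hg0 _ _ (hex k)
    exact (tendsto_congr' hev).2 tendsto_const_nhds
  refine ⟨range d, countable_range d, hD, fun a ha => ?_⟩
  have hc : IsClosed {a : Cp X | (a, z) ∈ closure (range d)} :=
    isClosed_closure.preimage (by fun_prop)
  refine closure_minimal (t := {a : Cp X | (a, z) ∈ closure (range d)}) ?_ hc ha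
  intro b hb
  rw [he] at hb
  obtain ⟨n, rfl⟩ := hb
  exact hlim n

lemma lindelof_of [T2Space X] [CompletelyRegularSpace X]
    (h : ∀ D : Set (Cp X × Cp X), D.Countable → DiscreteTopology D → IsLindelof (closure D))
    (E : Set (Cp X)) (hE : E.Countable) : IsLindelof (closure E) := by
  rcases finite_or_infinite X with hX | hX
  · have hX2 : Countable X := Finite.to_countable
    have h2 : SecondCountableTopology (Cp X) :=
      Topology.IsInducing.secondCountableTopology (f := (Subtype.val : Cp X → X → ℝ))
        Topology.IsInducing.subtypeVal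
    exact HereditarilyLindelofSpace.isLindelof _
  · rcases E.eq_empty_or_nonempty with h0 | hEne
    · rw [h0, closure_empty]
      exact isLindelof_empty
    obtain ⟨D, hDc, hDd, hD⟩ := exists_discrete E hE hEne
    have h1 := (h D hDc hDd).inter_right
      (isClosed_closure.prod isClosed_singleton : IsClosed (closure E ×ˢ {(z : Cp X)}))
    have h2 := h1.image continuous_fst
    have h3 : Prod.fst '' (closure D ∩ closure E ×ˢ {(z : Cp X)}) = closure E := by
      ext a
      constructor
      · rintro ⟨p, ⟨_, hp⟩, rfl⟩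
        exact hp.1
      · intro ha
        exact ⟨(a, z), ⟨hD a ha, ha, rfl⟩, rfl⟩
    rwa [h3] at h2

/-- If closures of countable discrete subsets of `C_p(X) × C_p(X)` are Lindelof, then so are
closures of countable subsets of `C_p(X)`; so `C_p(X)` is Lindelof if it is separable. -/
theorem result (X : Type*) [TopologicalSpace X] [T2Space X] [CompletelyRegularSpace X]
    (h : ∀ D : Set (Cp X × Cp X), D.Countable → DiscreteTopology D →
      IsLindelof (closure D)) :
    (∀ E : Set (Cp X), E.Countable → IsLindelof (closure E)) ∧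
    (TopologicalSpace.SeparableSpace (Cp X) → LindelofSpace (Cp X)) := by
  refine ⟨fun E hE => lindelof_of h E hE, fun hsep => ?_⟩
  obtain ⟨E, hE, hEd⟩ := TopologicalSpace.exists_countable_dense (Cp X)
  have := lindelof_of h E hE
  rw [hEd.closure_eq] at this
  exact ⟨this⟩

end Pool.Agent.Results.MP_f12e07_gt.SeparablePart
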